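import Pool.Agent.T6.H95.MB.Hall

/-!
# Maker-Breaker domination number of graphs of odd order with a large fractional matching

A graph of odd order `n` without isolated vertices in which every vertex set `A` has at least
`|A| - 1` neighbours satisfies `γ_MB ≤ (n - 1) / 2`.
-/

namespace Pool.Agent.Results.MP_374a5d_co.FractionalMatching

open H95.MB

/-- the Maker-Breaker domination number: the least `m` such that Dominator, moving first, can make
the set of his vertices dominating within `m` moves (`⊤` if there is no such `m`) -/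
noncomputable def gammaMB {V : Type} [Fintype V] [DecidableEq V] (G : SimpleGraph V) : ℕ∞ :=
  sInf {k : ℕ∞ | ∃ m : ℕ, k = m ∧ WinsIn G m ∅ ∅}

theorem result (V : Type) [Fintype V] [DecidableEq V] (G : SimpleGraph V)
    (hiso : ∀ v, ∃ w, G.Adj v w) (hodd : Odd (Fintype.card V))
    (hN : ∀ A N : Finset V, (∀ w, w ∈ N ↔ ∃ v ∈ A, G.Adj v w) → A.card ≤ N.card + 1) :
    gammaMB G ≤ (((Fintype.card V - 1) / 2 : ℕ) : ℕ∞) := by
  have hpos : 0 < Fintype.card V := by
    obtain ⟨t, ht⟩ := hodd
    omega
  obtain ⟨v1⟩ : Nonempty V := Fintype.card_pos_iff.1 hpos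
  obtain ⟨π, x0, h⟩ := exists_perm G v1 hN
  exact sInf_le ⟨_, rfl, main G hiso hodd π x0 h⟩

end Pool.Agent.Results.MP_374a5d_co.FractionalMatching
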